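import Pool.Agent.H108R3.Had.Main

/-!
# Williamson Hadamard matrices of order `2 ^ t * q` for all `t ≥ (log log q) ^ (1 + o(1))`

There is a constant `c` such that for every integer `q ≥ 3` and every integer
`t ≥ c * ℓ * (1 + log ℓ) ^ 2`, where `ℓ = 1 + log log q`, there is a Williamson Hadamard matrix of
order `2 ^ t * q`.
-/

set_option autoImplicit false
open Matrix

namespace Pool.Agent.Results.MP_f288ff_co.LogLogOrders

/-- A Hadamard matrix `K` of order `w` gives the Williamson Hadamard matrix with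
`A = B = C = D = K`. -/
theorem block (w : ℕ) (K : Matrix (Fin w) (Fin w) ℤ)
    (h : K * Kᵀ = (w : ℤ) • (1 : Matrix (Fin w) (Fin w) ℤ)) :
    (Matrix.fromBlocks (Matrix.fromBlocks K K K (-K)) (Matrix.fromBlocks K K K (-K))
        (Matrix.fromBlocks K (-K) K K) (Matrix.fromBlocks (-K) K (-K) (-K))) *
      (Matrix.fromBlocks (Matrix.fromBlocks K K K (-K)) (Matrix.fromBlocks K K K (-K))
        (Matrix.fromBlocks K (-K) K K) (Matrix.fromBlocks (-K) K (-K) (-K)))ᵀ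
      = ((4 * w : ℕ) : ℤ) • (1 : Matrix ((Fin w ⊕ Fin w) ⊕ (Fin w ⊕ Fin w))
          ((Fin w ⊕ Fin w) ⊕ (Fin w ⊕ Fin w)) ℤ) := by
  have e : ((4 * w : ℕ) : ℤ) • (1 : Matrix (Fin w) (Fin w) ℤ) =
      (w : ℤ) • (1 : Matrix (Fin w) (Fin w) ℤ) + (w : ℤ) • (1 : Matrix (Fin w) (Fin w) ℤ) +
        ((w : ℤ) • (1 : Matrix (Fin w) (Fin w) ℤ) + (w : ℤ) • (1 : Matrix (Fin w) (Fin w) ℤ)) := by
    rw [← add_smul, ← add_smul]
    congr 1
    push_cast
    ring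
  rw [← fromBlocks_one, ← fromBlocks_one, fromBlocks_smul, fromBlocks_smul]
  simp only [fromBlocks_transpose, fromBlocks_multiply, transpose_neg, smul_zero, e,
    mul_neg, neg_mul, neg_neg, h, fromBlocks_add]
  have z : (0 : Matrix (Fin w ⊕ Fin w) (Fin w ⊕ Fin w) ℤ) = fromBlocks 0 0 0 0 := by
    rw [fromBlocks_zero]
  rw [z]
  abel_nf

theorem result : ∃ c : ℝ, ∀ q t : ℕ, 3 ≤ q →
    c * (1 + Real.log (Real.log q)) * (1 + Real.log (1 + Real.log (Real.log q))) ^ 2 ≤ t →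
    ∃ w : ℕ, 2 ^ t * q = 4 * w ∧
      ∃ A B C D : Matrix (Fin w) (Fin w) ℤ,
        (∀ i j, A i j = 1 ∨ A i j = -1) ∧
        (∀ i j, B i j = 1 ∨ B i j = -1) ∧
        (∀ i j, C i j = 1 ∨ C i j = -1) ∧
        (∀ i j, D i j = 1 ∨ D i j = -1) ∧
        A * Bᵀ = B * Aᵀ ∧ A * Cᵀ = C * Aᵀ ∧ A * Dᵀ = D * Aᵀ ∧
        B * Cᵀ = C * Bᵀ ∧ B * Dᵀ = D * Bᵀ ∧ C * Dᵀ = D * Cᵀ ∧
        A * Aᵀ + B * Bᵀ + C * Cᵀ + D * Dᵀ = ((4 * w : ℕ) : ℤ) • (1 : Matrix (Fin w) (Fin w) ℤ) ∧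
        (Matrix.fromBlocks (Matrix.fromBlocks A B B (-A)) (Matrix.fromBlocks C D D (-C))
            (Matrix.fromBlocks C (-D) D C) (Matrix.fromBlocks (-A) B (-B) (-A))) *
          (Matrix.fromBlocks (Matrix.fromBlocks A B B (-A)) (Matrix.fromBlocks C D D (-C))
            (Matrix.fromBlocks C (-D) D C) (Matrix.fromBlocks (-A) B (-B) (-A)))ᵀ
          = ((4 * w : ℕ) : ℤ) • (1 : Matrix ((Fin w ⊕ Fin w) ⊕ (Fin w ⊕ Fin w))
              ((Fin w ⊕ Fin w) ⊕ (Fin w ⊕ Fin w)) ℤ) := by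
  obtain ⟨c, hc, h⟩ := Pool.Agent.H108R3.Had.had_loglog
  refine ⟨c + 2, fun q t hq ht => ?_⟩
  have hq3 : (3 : ℝ) ≤ q := by exact_mod_cast hq
  have h1 : 1 < Real.log q := by
    rw [Real.lt_log_iff_exp_lt (by linarith)]
    linarith [Real.exp_one_lt_d9]
  have h2 : 0 < Real.log (Real.log q) := Real.log_pos h1
  have h3 : 0 ≤ Real.log (1 + Real.log (Real.log q)) := Real.log_nonneg (by linarith)
  have h4 : 1 ≤ (1 + Real.log (Real.log q)) * (1 + Real.log (1 + Real.log (Real.log q))) ^ 2 := by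
    have h5 : (1 : ℝ) ≤ 1 + Real.log (Real.log q) := by linarith
    have h6 : (1 : ℝ) ≤ (1 + Real.log (1 + Real.log (Real.log q))) ^ 2 := one_le_pow₀ (by linarith)
    nlinarith
  have h7 : c * (1 + Real.log (Real.log q)) * (1 + Real.log (1 + Real.log (Real.log q))) ^ 2 + 2 ≤
      (t : ℝ) := by
    refine le_trans ?_ ht
    nlinarith
  have h8 : (0 : ℝ) ≤
      c * (1 + Real.log (Real.log q)) * (1 + Real.log (1 + Real.log (Real.log q))) ^ 2 := by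
    rw [mul_assoc]
    exact mul_nonneg (by linarith) (by linarith)
  have ht2 : 2 ≤ t := by
    have : (2 : ℝ) ≤ t := by linarith
    exact_mod_cast this
  obtain ⟨s, rfl⟩ : ∃ s, t = s + 2 := ⟨t - 2, by omega⟩
  obtain ⟨K, hK1, hK2⟩ := h q s hq (by push_cast at h7; linarith)
  refine ⟨2 ^ s * q, by ring, K, K, K, K, hK1, hK1, hK1, hK1, rfl, rfl, rfl, rfl, rfl, rfl,
    ?_, block _ K hK2⟩
  rw [hK2, ← add_smul, ← add_smul, ← add_smul]
  congr 1
  push_cast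
  ring

end Pool.Agent.Results.MP_f288ff_co.LogLogOrders
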